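import Mathlib
import Pool.Agent.Helper575.Lag3

set_option autoImplicit false

namespace Pool.Agent.Results.MP_58c014_an.ProductDecreasing

open MeasureTheory

/-- The weight exp(-sum x_j) times the product over k < j of (x_j - x_k)^2. -/
noncomputable def P (n : ℕ) (x : Fin n → ℝ) : ℝ :=
  Real.exp (-∑ j, x j) * ∏ k, ∏ j ∈ Finset.Ioi k, (x j - x k) ^ 2

/-- F(t): integral over [0, oo)^n of P(x) times the product of (x_j + t)^(-1/2). -/
noncomputable def F (n : ℕ) (t : ℝ) : ℝ :=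
  ∫ x in Set.Ici (0 : Fin n → ℝ), P n x * ∏ j, (x j + t) ^ (-(1 / 2) : ℝ)

/-- G(t): integral over [0, oo)^n of P(x) times the product of (x_j + t)^(1/2). -/
noncomputable def G (n : ℕ) (t : ℝ) : ℝ :=
  ∫ x in Set.Ici (0 : Fin n → ℝ), P n x * ∏ j, (x j + t) ^ (1 / 2 : ℝ)

/-- H(t) = 2 (F G)'(t). -/
noncomputable def H (n : ℕ) (t : ℝ) : ℝ := 2 * deriv (fun s => F n s * G n s) t

/-- Sanity check: both integrals converge for every t ≥ 0. -/
theorem converge (n : ℕ) (t : ℝ) (ht : 0 ≤ t) :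
    IntegrableOn (fun x => P n x * ∏ j, (x j + t) ^ (-(1 / 2) : ℝ)) (Set.Ici (0 : Fin n → ℝ)) ∧
    IntegrableOn (fun x => P n x * ∏ j, (x j + t) ^ (1 / 2 : ℝ)) (Set.Ici (0 : Fin n → ℝ)) := by
  constructor
  · have h := Pool.Agent.Helper575.Lag.Q_integrable (n := n) (a := -(1 / 2)) (Or.inr rfl) ht
    rw [Pool.Agent.Helper575.Lag.mu_eq] at h
    exact h
  · have h := Pool.Agent.Helper575.Lag.Q_integrable (n := n) (a := 1 / 2) (Or.inl rfl) ht
    rw [Pool.Agent.Helper575.Lag.mu_eq] at h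
    exact h

theorem F_eq (n : ℕ) (t : ℝ) :
    F n t = ∫ x, Pool.Agent.Helper575.Lag.Q (n := n) (-(1 / 2)) t x
      ∂(Pool.Agent.Helper575.Lag.mu n) := by
  rw [Pool.Agent.Helper575.Lag.mu_eq]; rfl

theorem G_eq (n : ℕ) (t : ℝ) :
    G n t = ∫ x, Pool.Agent.Helper575.Lag.Q (n := n) (1 / 2) t x
      ∂(Pool.Agent.Helper575.Lag.mu n) := by
  rw [Pool.Agent.Helper575.Lag.mu_eq]; rfl

theorem H_neg (n : ℕ) (hn : 0 < n) (t : ℝ) (ht : 0 < t) : H n t < 0 := by
  have hF := Pool.Agent.Helper575.Lag.hasDerivAt_int (n := n) (a := -(1 / 2)) (Or.inr rfl) ht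
  have hG := Pool.Agent.Helper575.Lag.hasDerivAt_int (n := n) (a := 1 / 2) (Or.inl rfl) ht
  have hFG := hF.mul hG
  have hfun : (fun s => F n s * G n s) =
      ((fun s => ∫ x, Pool.Agent.Helper575.Lag.Q (n := n) (-(1 / 2)) s x
        ∂(Pool.Agent.Helper575.Lag.mu n)) * fun s =>
        ∫ x, Pool.Agent.Helper575.Lag.Q (n := n) (1 / 2) s x
          ∂(Pool.Agent.Helper575.Lag.mu n)) := by
    funext s
    simp only [Pi.mul_apply]
    rw [F_eq, G_eq]
  unfold H
  rw [hfun, hFG.deriv]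
  have key := Pool.Agent.Helper575.Lag3.key (n := n) ht hn
  have e1 : ∫ x, Pool.Agent.Helper575.Lag.Q (n := n) (-(1 / 2)) t x *
      (-(1 / 2) * Pool.Agent.Helper575.Lag.S t x) ∂(Pool.Agent.Helper575.Lag.mu n) =
      -(1 / 2) * ∫ x, Pool.Agent.Helper575.Lag.Q (n := n) (-(1 / 2)) t x *
        Pool.Agent.Helper575.Lag.S t x ∂(Pool.Agent.Helper575.Lag.mu n) := by
    rw [← integral_const_mul]
    exact integral_congr_ae (Filter.Eventually.of_forall fun x => by ring)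
  have e2 : ∫ x, Pool.Agent.Helper575.Lag.Q (n := n) (1 / 2) t x *
      (1 / 2 * Pool.Agent.Helper575.Lag.S t x) ∂(Pool.Agent.Helper575.Lag.mu n) =
      1 / 2 * ∫ x, Pool.Agent.Helper575.Lag.Q (n := n) (1 / 2) t x *
        Pool.Agent.Helper575.Lag.S t x ∂(Pool.Agent.Helper575.Lag.mu n) := by
    rw [← integral_const_mul]
    exact integral_congr_ae (Filter.Eventually.of_forall fun x => by ring)
  rw [e1, e2]
  nlinarith

/-- Q1: for every n ≥ 1 (in particular every n ≥ 2) the function t ↦ F(t)G(t) is strictly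
decreasing on [0, oo), and H(t) < 0 for all t > 0. -/
theorem result (n : ℕ) (hn : 1 ≤ n) :
    StrictAntiOn (fun t => F n t * G n t) (Set.Ici 0) ∧ ∀ t : ℝ, 0 < t → H n t < 0 := by
  refine ⟨?_, fun t ht => H_neg n hn t ht⟩
  refine strictAntiOn_of_deriv_neg (convex_Ici 0) ?_ ?_
  · have hF := Pool.Agent.Helper575.Lag.continuousOn_int (n := n) (a := -(1 / 2)) (Or.inr rfl)
    have hG := Pool.Agent.Helper575.Lag.continuousOn_int (n := n) (a := 1 / 2) (Or.inl rfl)
    refine (hF.mul hG).congr fun s _ => ?_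
    simp only [Pi.mul_apply]
    rw [F_eq, G_eq]
  · intro t ht
    rw [interior_Ici] at ht
    have h := H_neg n hn t ht
    unfold H at h
    linarith

end Pool.Agent.Results.MP_58c014_an.ProductDecreasing
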